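import Mathlib

/-!
# A non-abelian variety of groups in which every group has an integral (MP_fbf3cb_al, Q1)

A group `H` is an *integral* of `G` if the derived subgroup of `H` is isomorphic to `G`.
A *variety* is the class of all groups satisfying a set of laws, i.e. of words in the free group
of countable rank. For every odd prime `p` we take the laws `x ^ p = 1` and `[[x, y], z] = 1`
(the groups of exponent dividing `p` and nilpotency class at most two). This variety is not
contained in the variety of abelian groups, and every group in it (finite or infinite) has an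
integral.

Proof. Let `G` be in the variety. By the Baer correspondence `x ⊕ y = x y [x, y] ^ ((p - 1) / 2)`
makes `G` a vector space over `ZMod p`, and the derived subgroup `D` is a subspace. Let `V` be a
complement of `D`. The map which is `-1` on `V` and `1` on `D` is an automorphism `σ` of the group
`G`, because `[x, y]` only depends on the `V`-components of `x` and `y`. In the semidirect product
`H` of `G` with an infinite cyclic group acting via `σ` the derived subgroup contains `D` and all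
`σ(v) v⁻¹ = v⁻²`, hence is equal to `G`.
-/

set_option autoImplicit false

namespace Pool.Agent.Results.MP_fbf3cb_al.ClassTwoExponentP

open scoped commutatorElement

universe u

/-- `G` has an integral: it is isomorphic to the derived subgroup of some group `H` -/
def HasIntegral (G : Type u) [Group G] : Prop :=
  ∃ (H : Type u) (_ : Group H), Nonempty (G ≃* commutator H)

/-- `G` belongs to the variety of groups defined by the set of laws `W` -/
def InVariety (W : Set (FreeGroup ℕ)) (G : Type u) [Group G] : Prop :=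
  ∀ w ∈ W, ∀ f : ℕ → G, FreeGroup.lift f w = 1

/-- the laws `x ^ p = 1` and `[[x, y], z] = 1` -/
def laws (p : ℕ) : Set (FreeGroup ℕ) :=
  {FreeGroup.of 0 ^ p, ⁅⁅FreeGroup.of 0, FreeGroup.of 1⁆, FreeGroup.of 2⁆}

theorem inVariety_iff (p : ℕ) (G : Type u) [Group G] : InVariety (laws p) G ↔
    (∀ x : G, x ^ p = 1) ∧ ∀ x y z : G, ⁅⁅x, y⁆, z⁆ = 1 := by
  constructor
  · intro h
    refine ⟨fun x => ?_, fun x y z => ?_⟩
    · have := h (FreeGroup.of 0 ^ p) (by simp [laws]) (fun _ => x)
      simpa using this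
    · have := h ⁅⁅FreeGroup.of 0, FreeGroup.of 1⁆, FreeGroup.of 2⁆ (by simp [laws])
        (fun n => if n = 0 then x else if n = 1 then y else z)
      simpa [map_commutatorElement] using this
  · rintro ⟨h1, h2⟩ w hw f
    simp only [laws, Set.mem_insert_iff, Set.mem_singleton_iff] at hw
    rcases hw with rfl | rfl
    · simp [h1]
    · simp [map_commutatorElement, h2]

/-! ### The Heisenberg group -/

/-- the group of order `p ^ 3` and exponent `p` -/
structure Heis (p : ℕ) where
  a : ZMod p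
  b : ZMod p
  c : ZMod p

namespace Heis

variable {p : ℕ}

@[ext] theorem ext' {x y : Heis p} (h1 : x.a = y.a) (h2 : x.b = y.b) (h3 : x.c = y.c) :
    x = y := by
  cases x; cases y; simp_all

instance : Mul (Heis p) := ⟨fun x y => ⟨x.a + y.a, x.b + y.b, x.c + y.c + (x.a * y.b - x.b * y.a)⟩⟩
instance : One (Heis p) := ⟨⟨0, 0, 0⟩⟩
instance : Inv (Heis p) := ⟨fun x => ⟨-x.a, -x.b, -x.c⟩⟩

@[simp] theorem mul_a (x y : Heis p) : (x * y).a = x.a + y.a := rfl
@[simp] theorem mul_b (x y : Heis p) : (x * y).b = x.b + y.b := rfl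
@[simp] theorem mul_c (x y : Heis p) : (x * y).c = x.c + y.c + (x.a * y.b - x.b * y.a) := rfl
@[simp] theorem one_a : (1 : Heis p).a = 0 := rfl
@[simp] theorem one_b : (1 : Heis p).b = 0 := rfl
@[simp] theorem one_c : (1 : Heis p).c = 0 := rfl
@[simp] theorem inv_a (x : Heis p) : (x⁻¹).a = -x.a := rfl
@[simp] theorem inv_b (x : Heis p) : (x⁻¹).b = -x.b := rfl
@[simp] theorem inv_c (x : Heis p) : (x⁻¹).c = -x.c := rfl

instance : Group (Heis p) :=
  Group.ofLeftAxioms
    (fun x y z => by
      apply ext' <;> simp <;> ring)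
    (fun x => by apply ext' <;> simp)
    (fun x => by apply ext' <;> simp; ring)

theorem pow_eq (x : Heis p) (n : ℕ) : x ^ n = ⟨n * x.a, n * x.b, n * x.c⟩ := by
  induction n with
  | zero => apply ext' <;> simp
  | succ n ih =>
    rw [pow_succ, ih]
    apply ext'
    · simp; ring
    · simp; ring
    · simp; ring

end Heis

theorem heis_mem (p : ℕ) : InVariety (laws p) (Heis p) := by
  rw [inVariety_iff]
  constructor
  · intro x
    rw [Heis.pow_eq]
    apply Heis.ext' <;> simp
  · intro x y z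
    apply Heis.ext'
    · simp [commutatorElement_def]
    · simp [commutatorElement_def]
    · simp [commutatorElement_def]
      ring

theorem heis_noncomm (p : ℕ) (hp : p.Prime) (h2 : p ≠ 2) :
    ∃ x y : Heis p, x * y ≠ y * x := by
  have : Fact p.Prime := ⟨hp⟩
  refine ⟨⟨1, 0, 0⟩, ⟨0, 1, 0⟩, fun h => ?_⟩
  have h1 := congrArg Heis.c h
  simp at h1
  have h3 : (2 : ZMod p) = 0 := by
    linear_combination h1
  have h4 : ((2 : ℕ) : ZMod p) = 0 := by exact_mod_cast h3
  rw [ZMod.natCast_eq_zero_iff] at h4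
  exact h2 ((Nat.prime_dvd_prime_iff_eq hp Nat.prime_two).1 h4)

/-! ### The Baer correspondence -/

section baer

variable {G : Type u} [Group G]

theorem comm_central (h : ∀ x y z : G, ⁅⁅x, y⁆, z⁆ = 1) (x y z : G) :
    ⁅x, y⁆ * z = z * ⁅x, y⁆ :=
  commutatorElement_eq_one_iff_mul_comm.1 (h x y z)

theorem comm_mul_left (h : ∀ x y z : G, ⁅⁅x, y⁆, z⁆ = 1) (x y z : G) :
    ⁅x * y, z⁆ = ⁅x, z⁆ * ⁅y, z⁆ := by
  have h1 : ⁅x * y, z⁆ = x * ⁅y, z⁆ * x⁻¹ * ⁅x, z⁆ := by
    simp only [commutatorElement_def]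
    group
  rw [h1, ← comm_central h y z x, mul_inv_cancel_right, comm_central h y z]

theorem comm_mul_right (h : ∀ x y z : G, ⁅⁅x, y⁆, z⁆ = 1) (x y z : G) :
    ⁅x, y * z⁆ = ⁅x, y⁆ * ⁅x, z⁆ := by
  have h1 : ⁅x, y * z⁆ = ⁅x, y⁆ * (y * ⁅x, z⁆ * y⁻¹) := by
    simp only [commutatorElement_def]
    group
  rw [h1, ← comm_central h x z y, mul_inv_cancel_right]

/-- the data: a group in the variety, `p = 2 k + 1` -/
structure Dat (G : Type u) [Group G] (p k : ℕ) : Prop where
  hp : p = 2 * k + 1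
  pow : ∀ x : G, x ^ p = 1
  cl : ∀ x y z : G, ⁅⁅x, y⁆, z⁆ = 1

variable {p k : ℕ}

/-- the additive structure -/
def add' (k : ℕ) (x y : G) : G := x * y * ⁅x, y⁆ ^ k

theorem cc (h : Dat G p k) (x y z : G) : ⁅x, y⁆ * z = z * ⁅x, y⁆ := comm_central h.cl x y z

theorem ccp (h : Dat G p k) (x y z : G) (n : ℕ) : ⁅x, y⁆ ^ n * z = z * ⁅x, y⁆ ^ n :=
  ((show Commute ⁅x, y⁆ z from cc h x y z).pow_left n).eq

theorem comm_of_central {c : G} (hc : ∀ z : G, c * z = z * c) (x : G) : ⁅c, x⁆ = 1 :=
  commutatorElement_eq_one_iff_mul_comm.2 (hc x)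

theorem comm_of_central' {c : G} (hc : ∀ z : G, c * z = z * c) (x : G) : ⁅x, c⁆ = 1 :=
  commutatorElement_eq_one_iff_mul_comm.2 (hc x).symm

theorem add_central {c : G} (hc : ∀ z : G, c * z = z * c) (x : G) : add' k x c = x * c := by
  unfold add'
  rw [comm_of_central' hc, one_pow, mul_one]

theorem comm_mul_central {c : G} (h : ∀ x y z : G, ⁅⁅x, y⁆, z⁆ = 1)
    (hc : ∀ z : G, c * z = z * c) (x y : G) : ⁅x * c, y⁆ = ⁅x, y⁆ := by
  rw [comm_mul_left h, comm_of_central hc, mul_one]

theorem comm_mul_central' {c : G} (h : ∀ x y z : G, ⁅⁅x, y⁆, z⁆ = 1)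
    (hc : ∀ z : G, c * z = z * c) (x y : G) : ⁅y, x * c⁆ = ⁅y, x⁆ := by
  rw [comm_mul_right h, comm_of_central' hc, mul_one]

theorem add_assoc' (h : Dat G p k) (x y z : G) :
    add' k (add' k x y) z = add' k x (add' k y z) := by
  have c1 := ccp h x y
  have c2 := ccp h y z
  unfold add'
  rw [comm_mul_central h.cl (fun w => c1 w k), comm_mul_central' h.cl (fun w => c2 w k),
    comm_mul_left h.cl, comm_mul_right h.cl,
    (show Commute ⁅x, z⁆ ⁅y, z⁆ from cc h x z _).mul_pow,
    (show Commute ⁅x, y⁆ ⁅x, z⁆ from cc h x y _).mul_pow]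
  calc x * y * ⁅x, y⁆ ^ k * z * (⁅x, z⁆ ^ k * ⁅y, z⁆ ^ k)
      = x * y * (⁅x, y⁆ ^ k * z) * (⁅x, z⁆ ^ k * ⁅y, z⁆ ^ k) := by group
    _ = x * y * z * (⁅x, y⁆ ^ k * (⁅x, z⁆ ^ k * ⁅y, z⁆ ^ k)) := by rw [c1]; group
    _ = x * y * z * (⁅x, y⁆ ^ k * ⁅x, z⁆ ^ k * ⁅y, z⁆ ^ k) := by group
    _ = x * y * z * (⁅y, z⁆ ^ k * (⁅x, y⁆ ^ k * ⁅x, z⁆ ^ k)) := by
        rw [← c2]
    _ = x * (y * z * ⁅y, z⁆ ^ k) * (⁅x, y⁆ ^ k * ⁅x, z⁆ ^ k) := by group

theorem add_comm' (h : Dat G p k) (x y : G) : add' k x y = add' k y x := by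
  unfold add'
  have h1 : ⁅y, x⁆ = ⁅x, y⁆⁻¹ := (commutatorElement_inv x y).symm
  have h2 : x * y = y * x * ⁅x, y⁆ := by
    rw [← cc h x y]
    simp only [commutatorElement_def]
    group
  have h3 : ⁅x, y⁆ ^ (2 * k + 1) = 1 := by rw [← h.hp]; exact h.pow _
  have h4 : ⁅x, y⁆ * ⁅x, y⁆ ^ k = (⁅x, y⁆⁻¹) ^ k := by
    rw [inv_pow, eq_inv_iff_mul_eq_one, ← pow_succ', ← pow_add]
    rw [← h3]
    congr 1
    ring
  rw [h1, ← h4]
  calc x * y * ⁅x, y⁆ ^ k = y * x * ⁅x, y⁆ * ⁅x, y⁆ ^ k := by rw [← h2]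
    _ = y * x * (⁅x, y⁆ * ⁅x, y⁆ ^ k) := by rw [mul_assoc]

theorem zero_add' (x : G) : add' k 1 x = x := by
  unfold add'
  simp

theorem neg_add' (x : G) : add' k x⁻¹ x = 1 := by
  unfold add'
  rw [commutatorElement_eq_one_iff_mul_comm.2 (by simp)]
  simp

/-- the type `G` with its additive structure -/
@[ext] structure L (G : Type u) [Group G] (p k : ℕ) (h : Dat G p k) where
  val : G

variable {h : Dat G p k}

instance : Add (L G p k h) := ⟨fun x y => ⟨add' k x.val y.val⟩⟩
instance : Zero (L G p k h) := ⟨⟨1⟩⟩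
instance : Neg (L G p k h) := ⟨fun x => ⟨x.val⁻¹⟩⟩

theorem add_val (x y : L G p k h) : (x + y).val = x.val * y.val * ⁅x.val, y.val⁆ ^ k := rfl
theorem zero_val : (0 : L G p k h).val = 1 := rfl
theorem neg_val (x : L G p k h) : (-x).val = x.val⁻¹ := rfl

instance instACG : AddCommGroup (L G p k h) where
  add_assoc x y z := L.ext (add_assoc' h _ _ _)
  zero_add x := L.ext (zero_add' _)
  add_zero x := L.ext (by
    change add' k x.val 1 = x.val
    rw [add_comm' h]
    exact zero_add' _)
  neg_add_cancel x := L.ext (neg_add' _)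
  add_comm x y := L.ext (add_comm' h _ _)
  nsmul := nsmulRec
  zsmul := zsmulRec

theorem nsmul_val (n : ℕ) (x : L G p k h) : (n • x).val = x.val ^ n := by
  induction n with
  | zero => rw [zero_smul, pow_zero, zero_val]
  | succ n ih =>
    rw [succ_nsmul, add_val, ih, pow_succ,
      commutatorElement_eq_one_iff_mul_comm.2 (by rw [← pow_succ, ← pow_succ']), one_pow, mul_one]

instance instMod : Module (ZMod p) (L G p k h) :=
  AddCommGroup.zmodModule (fun x => L.ext (by rw [nsmul_val, h.pow, zero_val]))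

theorem central_of_mem (h : Dat G p k) {c : G} (hc : c ∈ commutator G) (z : G) :
    c * z = z * c := by
  have h1 : commutator G ≤ Subgroup.center G := by
    rw [commutator_eq_closure, Subgroup.closure_le]
    rintro _ ⟨x, y, rfl⟩
    exact Subgroup.mem_center_iff.2 fun g => (cc h x y g).symm
  exact (Subgroup.mem_center_iff.1 (h1 hc) z).symm

/-- the derived subgroup as a subspace -/
def DD (h : Dat G p k) : Submodule (ZMod p) (L G p k h) :=
  AddSubgroup.toZModSubmodule p
    { carrier := {x | x.val ∈ commutator G}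
      zero_mem' := (commutator G).one_mem
      add_mem' := by
        intro a b ha hb
        change a.val * b.val * ⁅a.val, b.val⁆ ^ k ∈ commutator G
        exact mul_mem (mul_mem ha hb) (pow_mem (Subgroup.commutator_mem_commutator
          (Subgroup.mem_top _) (Subgroup.mem_top _)) k)
      neg_mem' := by
        intro a ha
        exact (commutator G).inv_mem ha }

theorem mem_DD (x : L G p k h) : x ∈ DD h ↔ x.val ∈ commutator G := Iff.rfl

theorem comm_inv_left (h : ∀ x y z : G, ⁅⁅x, y⁆, z⁆ = 1) (x y : G) : ⁅x⁻¹, y⁆ = ⁅x, y⁆⁻¹ := by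
  rw [eq_inv_iff_mul_eq_one, ← comm_mul_left h, inv_mul_cancel]
  simp

theorem comm_inv_right (h : ∀ x y z : G, ⁅⁅x, y⁆, z⁆ = 1) (x y : G) : ⁅x, y⁻¹⁆ = ⁅x, y⁆⁻¹ := by
  rw [eq_inv_iff_mul_eq_one, ← comm_mul_right h, inv_mul_cancel]
  simp

/-- the automorphism which is `-1` on a complement of the derived subgroup -/
theorem exists_sigma (h : Dat G p k) (hp : p.Prime) : ∃ (σ : G ≃* G) (V : Set G),
    (∀ v ∈ V, σ v = v⁻¹) ∧ ∀ x : G, ∃ v ∈ V, ∃ w ∈ commutator G, x = v * w := by
  have : Fact p.Prime := ⟨hp⟩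
  obtain ⟨V, hV⟩ := Submodule.exists_isCompl (DD h)
  set π := V.projectionOnto (DD h) hV.symm with hπ
  have hπV : ∀ v : V, π (v : L G p k h) = v := fun v =>
    Submodule.projectionOnto_apply_left hV.symm v
  have hπD : ∀ d ∈ DD h, π d = 0 := fun d hd =>
    Submodule.projectionOnto_apply_of_mem_right hV.symm hd
  have hD : ∀ x : L G p k h, x - π x ∈ DD h := by
    intro x
    rw [← Submodule.projectionOnto_apply_eq_zero_iff hV.symm, ← hπ, map_sub, hπV, sub_self]
  -- the involution
  let f : L G p k h → L G p k h := fun x => x - (π x + π x)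
  have hfadd : ∀ x y, f (x + y) = f x + f y := by
    intro x y
    simp only [f, map_add, Submodule.coe_add]
    abel
  have hπf : ∀ x, π (f x) = -π x := by
    intro x
    simp only [f, map_sub, map_add, hπV]
    abel
  have hff : ∀ x, f (f x) = x := by
    intro x
    change f x - (π (f x) + π (f x)) = x
    rw [hπf]
    simp only [f, Submodule.coe_neg]
    abel
  have hfD : ∀ d ∈ DD h, f d = d := by
    intro d hd
    simp only [f, hπD d hd, Submodule.coe_zero]
    abel
  have hfV : ∀ v ∈ V, f v = -v := by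
    intro v hv
    have := hπV ⟨v, hv⟩
    simp only at this
    simp only [f, this]
    abel
  have hval : ∀ x y : L G p k h, y ∈ DD h → (x + y).val = x.val * y.val := fun x y hy =>
    add_central (central_of_mem h hy) x.val
  -- decomposition
  have hdec : ∀ x : L G p k h, x.val = (π x : L G p k h).val * (x - π x).val := by
    intro x
    rw [← hval _ _ (hD x)]
    congr 1
    abel
  have hdec' : ∀ x : L G p k h, (f x).val = (π x : L G p k h).val⁻¹ * (x - π x).val := by
    intro x
    rw [← neg_val, ← hval _ _ (hD x)]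
    congr 1
    simp only [f]
    abel
  have hcomm : ∀ x y : L G p k h, ⁅(f x).val, (f y).val⁆ = ⁅x.val, y.val⁆ := by
    intro x y
    rw [hdec' x, hdec' y, hdec x, hdec y]
    rw [comm_mul_central h.cl (central_of_mem h (hD x)),
      comm_mul_central' h.cl (central_of_mem h (hD y)),
      comm_mul_central h.cl (central_of_mem h (hD x)),
      comm_mul_central' h.cl (central_of_mem h (hD y)), comm_inv_left h.cl, comm_inv_right h.cl,
      inv_inv]
  have hmul : ∀ x y : L G p k h, (f ⟨x.val * y.val⟩).val = (f x).val * (f y).val := by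
    intro x y
    let c : L G p k h := ⟨(⁅x.val, y.val⁆ ^ k)⁻¹⟩
    have hc : c ∈ DD h := by
      change (⁅x.val, y.val⁆ ^ k)⁻¹ ∈ commutator G
      exact inv_mem (pow_mem (Subgroup.commutator_mem_commutator
          (Subgroup.mem_top _) (Subgroup.mem_top _)) k)
    have h1 : (⟨x.val * y.val⟩ : L G p k h) = x + y + c := by
      apply L.ext
      rw [hval _ _ hc, add_val]
      change _ = _ * (⁅x.val, y.val⁆ ^ k)⁻¹
      rw [mul_inv_cancel_right]
    rw [h1, hfadd, hfadd, hfD c hc, hval _ _ hc, add_val, hcomm]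
    change _ * (⁅x.val, y.val⁆ ^ k)⁻¹ = _
    rw [mul_inv_cancel_right]
  refine ⟨{ toFun := fun g => (f ⟨g⟩).val
            invFun := fun g => (f ⟨g⟩).val
            left_inv := fun g => congrArg L.val (hff ⟨g⟩)
            right_inv := fun g => congrArg L.val (hff ⟨g⟩)
            map_mul' := fun a b => hmul ⟨a⟩ ⟨b⟩ }, {g | (⟨g⟩ : L G p k h) ∈ V}, ?_, ?_⟩
  · intro v hv
    change (f ⟨v⟩).val = v⁻¹
    rw [hfV ⟨v⟩ hv, neg_val]
  · intro x
    exact ⟨(π ⟨x⟩ : L G p k h).val, (π ⟨x⟩).2, ((⟨x⟩ : L G p k h) - π ⟨x⟩).val, hD ⟨x⟩, hdec ⟨x⟩⟩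

end baer

theorem hasIntegral_of_sigma {G : Type u} [Group G] {p k : ℕ} (hp : p = 2 * k + 1)
    (hpow : ∀ x : G, x ^ p = 1) (σ : G ≃* G) (V : Set G) (hV : ∀ v ∈ V, σ v = v⁻¹)
    (hdec : ∀ x : G, ∃ v ∈ V, ∃ w ∈ commutator G, x = v * w) : HasIntegral G := by
  let φ : Multiplicative ℤ →* MulAut G := zpowersHom (MulAut G) σ
  let H : Type u := G ⋊[φ] Multiplicative ℤ
  have h1 : commutator H = (SemidirectProduct.inl : G →* H).range := by
    apply le_antisymm
    · rw [SemidirectProduct.range_inl_eq_ker_rightHom]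
      exact Abelianization.commutator_subset_ker _
    · rintro _ ⟨x, rfl⟩
      obtain ⟨v, hv, w, hw, rfl⟩ := hdec x
      rw [map_mul]
      refine mul_mem ?_ ?_
      · have h2 : (SemidirectProduct.inl (v⁻¹ * v⁻¹) : H) ∈ commutator H := by
          have h3 : (SemidirectProduct.inl (v⁻¹ * v⁻¹) : H) =
              ⁅(SemidirectProduct.inr (Multiplicative.ofAdd 1) : H), SemidirectProduct.inl v⁆ := by
            rw [commutatorElement_def, ← map_inv SemidirectProduct.inr, ← SemidirectProduct.inl_aut]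
            have h4 : φ (Multiplicative.ofAdd 1) = σ := by
              simp [φ]
            rw [h4, hV v hv, ← map_inv, ← map_mul]
          rw [h3]
          exact Subgroup.commutator_mem_commutator (Subgroup.mem_top _) (Subgroup.mem_top _)
        have h5 : v = (v⁻¹ * v⁻¹) ^ k := by
          rw [← sq, ← pow_mul, inv_pow, eq_inv_iff_mul_eq_one, ← pow_succ', ← hp, hpow]
        rw [h5, map_pow]
        exact pow_mem h2 k
      · have h6 : (commutator G).map (SemidirectProduct.inl : G →* H) ≤ commutator H := by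
          rw [commutator_def, Subgroup.map_commutator, commutator_def]
          exact Subgroup.commutator_mono le_top le_top
        exact h6 ⟨w, hw, rfl⟩
  exact ⟨H, inferInstance, ⟨(MonoidHom.ofInjective SemidirectProduct.inl_injective).trans
    (MulEquiv.subgroupCongr h1.symm)⟩⟩

/-- Q1 of MP_fbf3cb_al: for every odd prime `p` the variety of groups defined by `x ^ p = 1` and
`[[x, y], z] = 1` contains a non-abelian group, and every group in this variety has an
integral. -/
theorem result (p : ℕ) (hp : p.Prime) (h2 : p ≠ 2) :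
    (∃ (G : Type) (_ : Group G), InVariety (laws p) G ∧ ∃ a b : G, a * b ≠ b * a) ∧
      ∀ (G : Type u) (_ : Group G), InVariety (laws p) G → HasIntegral G := by
  refine ⟨⟨Heis p, inferInstance, heis_mem p, heis_noncomm p hp h2⟩, fun G _ hG => ?_⟩
  rw [inVariety_iff] at hG
  obtain ⟨k, hk⟩ := hp.odd_of_ne_two h2
  obtain ⟨σ, V, hV, hdec⟩ := exists_sigma (⟨hk, hG.1, hG.2⟩ : Dat G p k) hp
  exact hasIntegral_of_sigma hk hG.1 σ V hV hdec

end Pool.Agent.Results.MP_fbf3cb_al.ClassTwoExponentP
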